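import Mathlib
import Pool.Agent.H.MP_472e54_mp.Mirror

namespace Pool.Agent.Results.MP_709dca_mp.Multiples

open Matrix
open scoped Kronecker ComplexOrder

/-- states -/
def St {ι : Type} [Fintype ι] (ρ : Matrix ι ι ℂ) : Prop := ρ.PosSemidef ∧ ρ.trace = 1

/-- entanglement witnesses -/
def EW {ι κ : Type} [Fintype ι] [Fintype κ] (W : Matrix (ι × κ) (ι × κ) ℂ) : Prop :=
  W.IsHermitian ∧
    (∀ σ ∈ convexHull ℝ {σ | ∃ α β, St α ∧ St β ∧ σ = α ⊗ₖ β}, 0 ≤ (W * σ).trace.re) ∧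
    ∃ ρ, St ρ ∧ (W * ρ).trace.re < 0

/-- optimal entanglement witnesses -/
def Opt {ι κ : Type} [Fintype ι] [Fintype κ] (W : Matrix (ι × κ) (ι × κ) ℂ) : Prop :=
  EW W ∧ ¬ ∃ (ε : ℝ) (P : Matrix (ι × κ) (ι × κ) ℂ), 0 < ε ∧ P.PosSemidef ∧ P ≠ 0 ∧
    EW (W - (ε : ℂ) • P)

open Pool.Agent.H.MP_472e54_mp in
theorem result (d : ℕ) (h0 : 0 < d) (h3 : 3 ∣ d) :
    ∃ (W M : Matrix (Fin d × Fin d) (Fin d × Fin d) ℂ) (u : ℝ),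
      Opt W ∧ Opt M ∧ W + M = (u : ℂ) • 1 := by
  obtain ⟨k, rfl⟩ := h3
  have : Nonempty (Fin k) := ⟨⟨0, by omega⟩⟩
  exact ⟨_, _, 76, opt_pos finProdFinEquiv.symm, opt_neg finProdFinEquiv.symm,
    L_add _ _ _ _ (by exact_mod_cast Y_add)⟩

end Pool.Agent.Results.MP_709dca_mp.Multiples
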